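import Pool.Agent.helper67.TSC.Spec

/-!
# tsc:TOT3, copy of ep:TOT with `WS Sg` for `Wd`
-/

set_option autoImplicit false

open Finset Pool.Agent.EP
open scoped Real

noncomputable section

namespace Pool.Agent.TSC

/-- The index of the window. -/
theorem TOT3_idx {S : Set ℕ} {c y l i p : ℕ} (h : p ∈ WS S c (y + i * l) l) : (p - y) / l = i := by
  simp only [WS, Wd, mem_filter, mem_Ico] at h
  obtain ⟨⟨⟨h1, h2⟩, _⟩, _⟩ := h
  have hl : 0 < l := by omega
  apply Nat.div_eq_of_lt_le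
  · omega
  · have e : (i + 1) * l = i * l + l := by ring
    omega

/-- The windows cover. -/
theorem TOT3_cover (S : Set ℕ) (c y l : ℕ) (hl : 0 < l) :
    #(WS S c y y) ≤ ∑ i ∈ range (y / l + 1), #(WS S c (y + i * l) l) := by
  have h : WS S c y y ⊆ (range (y / l + 1)).biUnion fun i => WS S c (y + i * l) l := by
    intro p hp
    simp only [WS, Wd, mem_filter, mem_Ico] at hp
    obtain ⟨⟨⟨h1, h2⟩, h3, h4⟩, h5⟩ := hp
    simp only [mem_biUnion, mem_range, WS, Wd, mem_filter, mem_Ico]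
    have e1 : (p - y) / l * l ≤ p - y := Nat.div_mul_le_self _ _
    have e2 : p - y < (p - y) / l * l + l := Nat.lt_div_mul_add hl
    have e3 : (p - y) / l ≤ y / l := Nat.div_le_div_right (by omega)
    exact ⟨(p - y) / l, by omega, ⟨⟨by omega, by omega⟩, h3, h4⟩, h5⟩
  exact (card_le_card h).trans card_biUnion_le

/-- A window of length `l` contains at most `l` primes. -/
theorem TOT3_card (S : Set ℕ) (c y l : ℕ) : #(WS S c y l) ≤ l := by
  have h : WS S c y l ⊆ Wd c y l := by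
    intro p hp
    simp only [WS, mem_filter] at hp
    exact hp.1
  refine (card_le_card h).trans ?_
  unfold Wd
  refine (card_filter_le _ _).trans ?_
  rw [Nat.card_Ico]
  omega

/-- The pairs. -/
theorem TOT3_pairs (S : Set ℕ) (a c e y l T : ℕ) (hT : T * l ≤ y + l) (Sg : Finset (Σ _ : ℕ, ℕ))
    (hSg : ∀ x ∈ Sg, x.1 < T ∧ x.2 < T) :
    ∑ x ∈ Sg, #{p ∈ WS S c (y + x.2 * l) l ×ˢ WS S c (y + x.1 * l) l |
      #(rs (2 ^ a) (nu a p.1 p.2)) % 2 = e} ≤ #(PS S a c e y l) := by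
  rw [← card_biUnion]
  · apply card_le_card
    intro p hp
    simp only [mem_biUnion, mem_filter, mem_product] at hp
    obtain ⟨x, hx, ⟨h1, h2⟩, h3⟩ := hp
    obtain ⟨t1, t2⟩ := hSg x hx
    have g1 : x.1 * l + l ≤ y + l := by
      have : (x.1 + 1) * l ≤ T * l := Nat.mul_le_mul_right _ t1
      have e : (x.1 + 1) * l = x.1 * l + l := by ring
      omega
    have g2 : x.2 * l + l ≤ y + l := by
      have : (x.2 + 1) * l ≤ T * l := Nat.mul_le_mul_right _ t2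
      have e : (x.2 + 1) * l = x.2 * l + l := by ring
      omega
    simp only [WS, Wd, mem_filter, mem_Ico] at h1 h2
    simp only [PS, WS, Wd, mem_filter, mem_product, mem_Ico]
    exact ⟨⟨⟨⟨⟨by omega, by omega⟩, h1.1.2⟩, h1.2⟩, ⟨⟨⟨by omega, by omega⟩, h2.1.2⟩, h2.2⟩⟩, h3⟩
  · intro x hx x' hx' hne
    rw [Function.onFun, disjoint_left]
    intro p hp hp'
    simp only [mem_filter, mem_product] at hp hp'
    apply hne
    have e1 := TOT3_idx hp.1.1
    have e2 := TOT3_idx hp.1.2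
    have e3 := TOT3_idx hp'.1.1
    have e4 := TOT3_idx hp'.1.2
    have f1 : x.1 = x'.1 := by rw [← e2, ← e4]
    have f2 : x.2 = x'.2 := by rw [← e1, ← e3]
    obtain ⟨x1, x2⟩ := x
    obtain ⟨x1', x2'⟩ := x'
    simp only at f1 f2
    rw [f1, f2]

/-- The final arithmetic. -/
theorem TOT3_arith (N l P Sg T J R y : ℕ) (A1 : N ≤ 2 * l * P) (A2 : P * P ≤ 2 * Sg)
    (A3 : Sg * N ^ 2 ≤ 8 * T ^ 2 * J * R) (A4 : T * l ≤ 2 * y) :
    N ^ 4 ≤ 256 * J * y ^ 2 * R := by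
  calc N ^ 4 = N ^ 2 * N ^ 2 := by ring
    _ ≤ (2 * l * P) ^ 2 * N ^ 2 := Nat.mul_le_mul_right _ (Nat.pow_le_pow_left A1 2)
    _ = (4 * l ^ 2 * N ^ 2) * (P * P) := by ring
    _ ≤ (4 * l ^ 2 * N ^ 2) * (2 * Sg) := Nat.mul_le_mul_left _ A2
    _ = (8 * l ^ 2) * (Sg * N ^ 2) := by ring
    _ ≤ (8 * l ^ 2) * (8 * T ^ 2 * J * R) := Nat.mul_le_mul_left _ A3
    _ = (64 * J * R) * (T * l) ^ 2 := by ring
    _ ≤ (64 * J * R) * (2 * y) ^ 2 := Nat.mul_le_mul_left _ (Nat.pow_le_pow_left A4 2)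
    _ = 256 * J * y ^ 2 * R := by ring

theorem TOT3 (hW : WIN3_stmt) (hB : BAD_stmt) : TOT3_stmt := by
  intro S a j c e y N₀ ha hj hja hy hc hc6 he hN H1 H2
  classical
  obtain ⟨l, hl⟩ : ∃ l, l = 2 ^ (a - j) := ⟨_, rfl⟩
  obtain ⟨L, hL⟩ : ∃ L, L = 2 ^ (a + 2 - j) := ⟨_, rfl⟩
  obtain ⟨T, hT⟩ : ∃ T, T = y / l + 1 := ⟨_, rfl⟩
  have hl0 : 0 < l := by
    rw [hl]
    positivity
  have hL0 : 0 < L := by
    rw [hL]
    positivity
  have hly : l ≤ y := by
    rw [hl]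
    exact (Nat.pow_le_pow_right (by norm_num) (Nat.sub_le _ _)).trans hy
  have hTl : T * l ≤ y + l := by
    rw [hT]
    have h := Nat.div_mul_le_self y l
    have e : (y / l + 1) * l = y / l * l + l := by ring
    omega
  have hT0 : 0 < T := by
    rw [hT]
    exact Nat.succ_pos _
  have hq : 2 ^ (a + 2) = L * 2 ^ j := by
    rw [hL, ← pow_add]
    congr 1
    omega
  rw [← hl] at H1 H2 ⊢
  rw [← hL] at H1
  rw [← hT] at H1 H2
  -- populous windows
  obtain ⟨Pop, hPop⟩ : ∃ Pop, Pop =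
      (range T).filter (fun i => N₀ ≤ 2 * T * #(WS S c (y + i * l) l)) := ⟨_, rfl⟩
  have hsum : N₀ ≤ ∑ i ∈ range T, #(WS S c (y + i * l) l) := by
    rw [hT]
    exact hN.trans (TOT3_cover S c y l hl0)
  rw [← sum_filter_add_sum_filter_not (range T)
    (fun i => N₀ ≤ 2 * T * #(WS S c (y + i * l) l)), ← hPop] at hsum
  have hnon : 2 * T * ∑ i ∈ (range T).filter (fun i => ¬N₀ ≤ 2 * T * #(WS S c (y + i * l) l)),
      #(WS S c (y + i * l) l) ≤ T * N₀ := by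
    rw [mul_sum]
    refine (sum_le_card_nsmul _ _ N₀ (fun i hi => ?_)).trans ?_
    · exact (not_le.mp (mem_filter.mp hi).2).le
    · rw [smul_eq_mul]
      apply Nat.mul_le_mul_right
      exact (card_filter_le _ _).trans (card_range T).le
  have hP1 : ∑ i ∈ Pop, #(WS S c (y + i * l) l) ≤ #Pop * l := by
    refine (sum_le_card_nsmul _ _ l (fun i _ => TOT3_card _ _ _ _)).trans ?_
    rw [smul_eq_mul]
  have A1 : N₀ ≤ 2 * l * #Pop := by
    have h1 : T * N₀ ≤ T * (2 * ∑ i ∈ Pop, #(WS S c (y + i * l) l)) := by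
      have h2 := Nat.mul_le_mul_left (2 * T) hsum
      nlinarith only [h2, hnon]
    have h3 := Nat.le_of_mul_le_mul_left h1 hT0
    calc N₀ ≤ 2 * ∑ i ∈ Pop, #(WS S c (y + i * l) l) := h3
      _ ≤ 2 * (#Pop * l) := Nat.mul_le_mul_left _ hP1
      _ = 2 * l * #Pop := by ring
  -- good pairs
  have hpopT : ∀ i ∈ Pop, i < T := by
    intro i hi
    rw [hPop] at hi
    exact mem_range.mp (mem_filter.mp hi).1
  have hpopN : ∀ i ∈ Pop, N₀ ≤ 2 * T * #(WS S c (y + i * l) l) := by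
    intro i hi
    rw [hPop] at hi
    exact (mem_filter.mp hi).2
  have hyi : ∀ i, i < T → y + i * l ≤ 2 * y := by
    intro i hi
    have h1 : (i + 1) * l ≤ T * l := Nat.mul_le_mul_right _ hi
    have e : (i + 1) * l = i * l + l := by ring
    omega
  have hgd : ∀ i' ∈ Pop,
      #Pop ≤ 2 * #(Pop.filter (fun i => Good a j e (y + i * l) (y + i' * l))) := by
    intro i' hi'
    have hb := hB a j e y (y + i' * l) T hj hja hy (by omega) (hyi i' (hpopT i' hi'))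
      (by rw [← hl]; exact hTl) he
    rw [← hl] at hb
    have h2 : #(Pop.filter (fun i => ¬Good a j e (y + i * l) (y + i' * l))) ≤
        30 * (T / 2 ^ j + 1) := by
      refine le_trans ?_ hb
      rw [← Set.ncard_coe_finset]
      apply Set.ncard_le_ncard
      · intro i hi
        rw [mem_coe, mem_filter] at hi
        exact ⟨hpopT i hi.1, hi.2⟩
      · exact (Set.finite_lt_nat T).subset fun i hi => hi.1
    have h3 := card_filter_add_card_filter_not (s := Pop)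
      (fun i => Good a j e (y + i * l) (y + i' * l))
    have h4 : 60 * (T / 2 ^ j + 1) ≤ #Pop := by
      have h5 : (2 * l) * (60 * (T / 2 ^ j + 1)) ≤ (2 * l) * #Pop := by
        calc (2 * l) * (60 * (T / 2 ^ j + 1)) = 120 * l * (T / 2 ^ j + 1) := by ring
          _ ≤ N₀ := H2
          _ ≤ 2 * l * #Pop := A1
      exact Nat.le_of_mul_le_mul_left h5 (by omega)
    omega
  obtain ⟨Sg, hSg⟩ : ∃ Sg : Finset (Σ _ : ℕ, ℕ), Sg =
      Pop.sigma (fun i' => Pop.filter (fun i => Good a j e (y + i * l) (y + i' * l))) :=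
    ⟨_, rfl⟩
  have hSm : ∀ x ∈ Sg, x.1 ∈ Pop ∧ x.2 ∈ Pop ∧ Good a j e (y + x.2 * l) (y + x.1 * l) := by
    intro x hx
    rw [hSg, mem_sigma, mem_filter] at hx
    exact ⟨hx.1, hx.2.1, hx.2.2⟩
  have A2 : #Pop * #Pop ≤ 2 * #Sg := by
    rw [hSg, card_sigma, mul_sum, ← smul_eq_mul]
    exact card_nsmul_le_sum _ _ _ hgd
  have hR := TOT3_pairs S a c e y l T hTl Sg
    (fun x hx => ⟨hpopT _ (hSm x hx).1, hpopT _ (hSm x hx).2.1⟩)
  have A3 : #Sg * N₀ ^ 2 ≤ 8 * T ^ 2 * 2 ^ j * #(PS S a c e y l) := by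
    refine le_trans ?_ (Nat.mul_le_mul_left _ hR)
    rw [mul_sum, ← smul_eq_mul]
    apply card_nsmul_le_sum
    intro x hx
    obtain ⟨m1, m2, m3⟩ := hSm x hx
    have w1 := hpopN _ m1
    have w2 := hpopN _ m2
    have w3 := hyi _ (hpopT _ m1)
    have w4 := hyi _ (hpopT _ m2)
    have hNN : N₀ ^ 2 ≤ 4 * T ^ 2 *
        (#(WS S c (y + x.2 * l) l) * #(WS S c (y + x.1 * l) l)) := by
      calc N₀ ^ 2 = N₀ * N₀ := by ring
        _ ≤ (2 * T * #(WS S c (y + x.2 * l) l)) * (2 * T * #(WS S c (y + x.1 * l) l)) :=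
          Nat.mul_le_mul w2 w1
        _ = _ := by ring
    have hcond : 4 * (2 ^ (a + 2)) ^ 4 ≤
        L ^ 3 * (#(WS S c (y + x.2 * l) l) * #(WS S c (y + x.1 * l) l)) := by
      have h5 : (4 * T ^ 2) * (4 * (2 ^ (a + 2)) ^ 4) ≤ (4 * T ^ 2) *
          (L ^ 3 * (#(WS S c (y + x.2 * l) l) * #(WS S c (y + x.1 * l) l))) := by
        calc (4 * T ^ 2) * (4 * (2 ^ (a + 2)) ^ 4) = 16 * (2 ^ (a + 2)) ^ 4 * T ^ 2 := by ring
          _ ≤ L ^ 3 * N₀ ^ 2 := H1
          _ ≤ L ^ 3 * (4 * T ^ 2 * (#(WS S c (y + x.2 * l) l) * #(WS S c (y + x.1 * l) l))) :=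
            Nat.mul_le_mul_left _ hNN
          _ = _ := by ring
      exact Nat.le_of_mul_le_mul_left h5 (by positivity)
    have hw := hW S a j c e y (y + x.2 * l) (y + x.1 * l) ha hj hja hy (by omega) w4 (by omega)
      w3 hc hc6 he m3
    rw [← hl, ← hL] at hw
    have hw2 := hw hcond
    rw [hq] at hw2
    obtain ⟨R, hRR⟩ : ∃ R, R = #{p ∈ WS S c (y + x.2 * l) l ×ˢ WS S c (y + x.1 * l) l |
      #(rs (2 ^ a) (nu a p.1 p.2)) % 2 = e} := ⟨_, rfl⟩
    rw [← hRR] at hw2 ⊢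
    have hw3 : #(WS S c (y + x.2 * l) l) * #(WS S c (y + x.1 * l) l) ≤ 2 * 2 ^ j * R := by
      have h6 : L * (#(WS S c (y + x.2 * l) l) * #(WS S c (y + x.1 * l) l)) ≤
          L * (2 * 2 ^ j * R) := by
        calc _ ≤ 2 * (L * 2 ^ j) * R := hw2
          _ = _ := by ring
      exact Nat.le_of_mul_le_mul_left h6 hL0
    calc N₀ ^ 2 ≤ 4 * T ^ 2 * (#(WS S c (y + x.2 * l) l) * #(WS S c (y + x.1 * l) l)) := hNN
      _ ≤ 4 * T ^ 2 * (2 * 2 ^ j * R) := Nat.mul_le_mul_left _ hw3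
      _ = 8 * T ^ 2 * 2 ^ j * R := by ring
  exact TOT3_arith N₀ l (#Pop) (#Sg) T (2 ^ j) (#(PS S a c e y l)) y A1 A2 A3 (by omega)

end Pool.Agent.TSC
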